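import Mathlib
import Pool.Agent.Helper65.Average

/-!
# The Gauss circle problem is equivalent to one-sided inequalities for thin annuli
-/

open MeasureTheory Set Pool.Agent.Helper65

namespace Pool.Agent.Helper65.Keep.AnnulusEquiv

/-- `F R` is the number of points `(m, n)` of `ℤ × ℤ` with `m ^ 2 + n ^ 2 ≤ R ^ 2`. -/
noncomputable def F (R : ℝ) : ℝ :=
  (Nat.card {p : ℤ × ℤ // (p.1 : ℝ) ^ 2 + (p.2 : ℝ) ^ 2 ≤ R ^ 2} : ℝ)

/-- The error term of the Gauss circle problem. -/
noncomputable def P (R : ℝ) : ℝ := F R - Real.pi * R ^ 2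

theorem P_eq : P = err := rfl

/-- averages of `P` over `R + s h`, `0 ≤ h ≤ δ` -/
theorem avg_shift {R s δ : ℝ} (hs : s ≠ 0) (hδ : 0 < δ) (hsδ : |s| * δ ≤ 1) (hR : 2 ≤ R) :
    |∫ h in (0:ℝ)..δ, P (R + s * h)| ≤ 38100 / √|s| * √R * √δ := by
  have hs0 : 0 < |s| := abs_pos.mpr hs
  have h1 : ∫ h in (0:ℝ)..δ, P (R + s * h) = s⁻¹ * ∫ r in R..(R + s * δ), err r := by
    rw [intervalIntegral.integral_comp_add_mul (fun x => P x) hs, smul_eq_mul, mul_zero, add_zero,
      P_eq]
  rw [h1, abs_mul, abs_inv]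
  have h2 : |∫ r in R..(R + s * δ), err r| ≤ 38100 * √R * √(|s| * δ) := by
    rcases le_or_gt 0 s with h | h
    · rw [abs_of_nonneg h] at hsδ ⊢
      have := avg_bound (a := R) (b := R + s * δ) (by linarith)
        (by nlinarith) (by linarith)
      rwa [add_sub_cancel_left] at this
    · rw [abs_of_neg h] at hsδ ⊢
      rw [intervalIntegral.integral_symm, abs_neg]
      have := avg_bound (a := R + s * δ) (b := R) (by nlinarith)
        (by nlinarith) (by nlinarith)
      have e1 : R - (R + s * δ) = -s * δ := by ring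
      rw [e1] at this
      refine this.trans ?_
      gcongr
      nlinarith
  have h3 : √|s| * √|s| = |s| := Real.mul_self_sqrt hs0.le
  have hss : 0 < √|s| := Real.sqrt_pos.mpr hs0
  calc |s|⁻¹ * |∫ r in R..(R + s * δ), err r| ≤ |s|⁻¹ * (38100 * √R * √(|s| * δ)) := by gcongr
    _ = 38100 / √|s| * √R * √δ := by
        rw [Real.sqrt_mul hs0.le]
        nth_rewrite 1 [← h3]
        field_simp

theorem P_int {a b : ℝ} (ha : 0 ≤ a) (hb : 0 ≤ b) : IntervalIntegrable P volume a b := by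
  rcases le_total a b with h | h
  · exact err_int ha h
  · exact (err_int hb h).symm

theorem P_shift_int {R s δ : ℝ} (hδ : 0 < δ) (hsδ : |s| * δ ≤ 1) (hR : 2 ≤ R) :
    IntervalIntegrable (fun h => P (R + s * h)) volume 0 δ := by
  by_cases hs : s = 0
  · subst hs
    simp
  · have h1 : IntervalIntegrable P volume (R + s * 0) (R + s * δ) := by
      apply P_int
      · linarith
      · have : -(|s| * δ) ≤ s * δ := by
          rw [neg_le, ← neg_mul]
          exact mul_le_mul_of_nonneg_right (neg_le_abs s) hδ.le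
        linarith
    have h2 := (h1.comp_add_left R).comp_mul_left (c := s)
    simpa [hs] using h2

/-- One sign at a time: isolating the term `c i * P R`. -/
theorem isolate {θ : ℝ} (hθ : 1 / 2 ≤ θ) {n : ℕ} (c t : Fin n → ℝ) (ht : Function.Injective t)
    {C R₀ : ℝ} (hC : 0 ≤ C)
    (H : ∀ R h : ℝ, R₀ ≤ R → 0 < h → h ≤ R ^ (1 - 2 * θ) →
        ∑ i, c i * P (R + t i * h) ≤ C * R ^ θ) (i : Fin n) :
    ∃ C' R₁ : ℝ, ∀ R, R₁ ≤ R → c i * P R ≤ C' * R ^ θ := by
  classical
  set B : ℝ := ∑ j, |t j| with hB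
  have hBj : ∀ j, |t j| ≤ B := fun j =>
    Finset.single_le_sum (f := fun j => |t j|) (fun j _ => abs_nonneg _) (Finset.mem_univ j)
  have hB0 : 0 ≤ B := Finset.sum_nonneg fun j _ => abs_nonneg _
  set η : ℝ := min (2 ^ (1 - 2 * θ)) (1 / (2 * B + 1)) with hη
  have hη0 : 0 < η := by
    apply lt_min
    · positivity
    · positivity
  have hη1 : η ≤ 2 ^ (1 - 2 * θ) := min_le_left _ _
  have hη2 : η ≤ 1 / (2 * B + 1) := min_le_right _ _
  have hsη : 0 < √η := Real.sqrt_pos.mpr hη0
  set D : ℝ := ∑ j ∈ Finset.univ.erase i, |c j| * (38100 / √|t j - t i|) with hD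
  refine ⟨C * 2 ^ θ + D / √η, max (R₀ + 1) 4, ?_⟩
  intro R hR
  have hR4 : 4 ≤ R := (le_max_right _ _).trans hR
  have hRR : R₀ + 1 ≤ R := (le_max_left _ _).trans hR
  have hR0 : 0 < R := by linarith
  set δ : ℝ := η * R ^ (1 - 2 * θ) with hδ
  have hRp : 0 < R ^ (1 - 2 * θ) := Real.rpow_pos_of_pos hR0 _
  have hδ0 : 0 < δ := by positivity
  have hRp1 : R ^ (1 - 2 * θ) ≤ 1 :=
    Real.rpow_le_one_of_one_le_of_nonpos (by linarith) (by linarith)
  have hδη : δ ≤ 1 / (2 * B + 1) := by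
    calc δ ≤ η * 1 := by rw [hδ]; gcongr
      _ ≤ _ := by rw [mul_one]; exact hη2
  have hδB : (2 * B + 1) * δ ≤ 1 := by
    calc (2 * B + 1) * δ ≤ (2 * B + 1) * (1 / (2 * B + 1)) := by gcongr
      _ = 1 := by field_simp
  have hshift : ∀ j, |t j - t i| * δ ≤ 1 := by
    intro j
    have : |t j - t i| ≤ 2 * B + 1 := by
      calc |t j - t i| ≤ |t j| + |t i| := abs_sub _ _
        _ ≤ 2 * B + 1 := by linarith [hBj j, hBj i]
    calc |t j - t i| * δ ≤ (2 * B + 1) * δ := by gcongr
      _ ≤ 1 := hδB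
  have hint : ∀ j, IntervalIntegrable (fun h => P (R + (t j - t i) * h)) volume 0 δ :=
    fun j => P_shift_int hδ0 (hshift j) (by linarith)
  have hmono : ∫ h in (0:ℝ)..δ, ∑ j, c j * P (R + (t j - t i) * h) ≤
      ∫ _h in (0:ℝ)..δ, C * 2 ^ θ * R ^ θ := by
    apply intervalIntegral.integral_mono_on_of_le_Ioo hδ0.le
    · have := IntervalIntegrable.sum Finset.univ
        (f := fun j h => c j * P (R + (t j - t i) * h)) (fun j _ => (hint j).const_mul (c j))
      have e : (fun u => ∑ j, c j * P (R + (t j - t i) * u)) =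
          ∑ j ∈ Finset.univ, fun h => c j * P (R + (t j - t i) * h) := by
        funext u
        rw [Finset.sum_apply]
      rw [e]
      exact this
    · simp
    · intro h hh
      have h1 : |t i * h| ≤ 1 / 2 := by
        rw [abs_mul, abs_of_pos hh.1]
        have e1 : |t i| * h ≤ B * δ := by
          have := hBj i
          have := hh.2.le
          gcongr
          exact hh.1.le
        nlinarith
      have h2 := abs_le.mp h1
      have hRp' : (0:ℝ) < R - t i * h := by linarith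
      have h3 := H (R - t i * h) h (by linarith) hh.1 (by
        calc h ≤ δ := hh.2.le
          _ ≤ 2 ^ (1 - 2 * θ) * R ^ (1 - 2 * θ) := by rw [hδ]; gcongr
          _ = (2 * R) ^ (1 - 2 * θ) := by rw [Real.mul_rpow (by norm_num) hR0.le]
          _ ≤ (R - t i * h) ^ (1 - 2 * θ) :=
              Real.rpow_le_rpow_of_nonpos hRp' (by linarith) (by linarith))
      have h4 : ∀ j, R - t i * h + t j * h = R + (t j - t i) * h := fun j => by ring
      simp_rw [h4] at h3
      refine h3.trans ?_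
      calc C * (R - t i * h) ^ θ ≤ C * (2 * R) ^ θ := by
            have : R - t i * h ≤ 2 * R := by linarith
            gcongr
        _ = C * 2 ^ θ * R ^ θ := by rw [Real.mul_rpow (by norm_num) hR0.le]; ring
  rw [intervalIntegral.integral_finsetSum (fun j _ => (hint j).const_mul _),
    intervalIntegral.integral_const, sub_zero, smul_eq_mul,
    ← Finset.add_sum_erase Finset.univ _ (Finset.mem_univ i)] at hmono
  simp_rw [intervalIntegral.integral_const_mul] at hmono
  have hi : ∫ h in (0:ℝ)..δ, P (R + (t i - t i) * h) = δ * P R := by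
    simp
  rw [hi] at hmono
  have hrest : -(D * (√R * √δ)) ≤
      ∑ j ∈ Finset.univ.erase i, c j * ∫ h in (0:ℝ)..δ, P (R + (t j - t i) * h) := by
    rw [hD, Finset.sum_mul, ← Finset.sum_neg_distrib]
    apply Finset.sum_le_sum
    intro j hj
    have hji : t j - t i ≠ 0 := by
      rw [sub_ne_zero]
      intro e
      exact (Finset.ne_of_mem_erase hj) (ht e)
    have h1 := avg_shift hji hδ0 (hshift j) (by linarith : (2:ℝ) ≤ R)
    have h2 : |c j * ∫ h in (0:ℝ)..δ, P (R + (t j - t i) * h)| ≤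
        |c j| * (38100 / √|t j - t i|) * (√R * √δ) := by
      rw [abs_mul]
      calc |c j| * |∫ h in (0:ℝ)..δ, P (R + (t j - t i) * h)|
          ≤ |c j| * (38100 / √|t j - t i| * √R * √δ) := by gcongr
        _ = _ := by ring
    exact (abs_le.mp h2).1
  have hRδ : √R * √δ = δ * (R ^ θ / √η) := by
    have e1 : √R = R ^ (1 / 2 : ℝ) := Real.sqrt_eq_rpow R
    have e2 : √(R ^ (1 - 2 * θ)) = R ^ (1 / 2 - θ) := by
      rw [Real.sqrt_eq_rpow, ← Real.rpow_mul hR0.le]
      congr 1; ring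
    have e3 : √η * √η = η := Real.mul_self_sqrt hη0.le
    have e4 : R ^ (1 / 2 : ℝ) * R ^ (1 / 2 - θ) = R ^ (1 - 2 * θ) * R ^ θ := by
      rw [← Real.rpow_add hR0, ← Real.rpow_add hR0]
      congr 1; ring
    rw [hδ, Real.sqrt_mul hη0.le, e1, e2]
    calc R ^ (1 / 2 : ℝ) * (√η * R ^ (1 / 2 - θ)) =
        √η * (R ^ (1 / 2 : ℝ) * R ^ (1 / 2 - θ)) := by ring
      _ = √η * (R ^ (1 - 2 * θ) * R ^ θ) := by rw [e4]
      _ = (√η * √η) * R ^ (1 - 2 * θ) * (R ^ θ / √η) := by field_simp
      _ = _ := by rw [e3]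
  have hfin : δ * (c i * P R) ≤ δ * ((C * 2 ^ θ + D / √η) * R ^ θ) := by
    have e1 : D * (√R * √δ) = δ * (D / √η * R ^ θ) := by
      rw [hRδ]; ring
    rw [e1] at hrest
    nlinarith
  exact le_of_mul_le_mul_left hfin hδ0

/-- **Main theorem.**  Let `θ ≥ 1/2`, let `t 1, …, t n` be distinct real shifts and let
`c 1, …, c n` be real coefficients, at least one of them positive and at least one negative.
Then `P(R) = O(R^θ)` if and only if the ONE-SIDED inequality
`∑ c_i P(R + t_i h) ≤ C R^θ` holds for all large `R` and all `0 < h ≤ R^(1-2θ)`. -/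
theorem result (θ : ℝ) (hθ : 1 / 2 ≤ θ) (n : ℕ) (c t : Fin n → ℝ)
    (ht : Function.Injective t) (hpos : ∃ i, 0 < c i) (hneg : ∃ i, c i < 0) :
    Asymptotics.IsBigO Filter.atTop (fun R : ℝ => P R) (fun R : ℝ => R ^ θ) ↔
      ∃ C R₀ : ℝ, ∀ R h : ℝ, R₀ ≤ R → 0 < h → h ≤ R ^ (1 - 2 * θ) →
        ∑ i, c i * P (R + t i * h) ≤ C * R ^ θ := by
  constructor
  · intro hO
    obtain ⟨C₁, hC₁⟩ := hO.bound
    obtain ⟨R₁, hR₁⟩ := Filter.eventually_atTop.mp hC₁
    set B : ℝ := ∑ j, |t j| with hB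
    have hBj : ∀ j, |t j| ≤ B := fun j =>
      Finset.single_le_sum (f := fun j => |t j|) (fun j _ => abs_nonneg _) (Finset.mem_univ j)
    have hB0 : 0 ≤ B := Finset.sum_nonneg fun j _ => abs_nonneg _
    refine ⟨∑ i, |c i| * (|C₁| * 2 ^ θ), max (R₁ + B) (B + 1), ?_⟩
    intro R h hR hh0 hh
    have hRB : R₁ + B ≤ R := (le_max_left _ _).trans hR
    have hRB1 : B + 1 ≤ R := (le_max_right _ _).trans hR
    have hR1 : 1 ≤ R := by linarith
    have hh1 : h ≤ 1 := hh.trans
      (Real.rpow_le_one_of_one_le_of_nonpos hR1 (by linarith))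
    rw [Finset.sum_mul]
    apply Finset.sum_le_sum
    intro i _
    have h1 : |t i * h| ≤ B := by
      rw [abs_mul, abs_of_pos hh0]
      calc |t i| * h ≤ B * 1 := by
            have := hBj i
            gcongr
        _ = B := mul_one _
    have h2 := abs_le.mp h1
    have h3 := hR₁ (R + t i * h) (by linarith)
    have hpos' : 0 ≤ R + t i * h := by linarith
    rw [Real.norm_eq_abs, Real.norm_eq_abs, abs_of_nonneg (Real.rpow_nonneg hpos' _)] at h3
    have h4 : (R + t i * h) ^ θ ≤ (2 * R) ^ θ :=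
      Real.rpow_le_rpow hpos' (by linarith) (by linarith)
    rw [Real.mul_rpow (by norm_num) (by linarith)] at h4
    calc c i * P (R + t i * h) ≤ |c i * P (R + t i * h)| := le_abs_self _
      _ = |c i| * |P (R + t i * h)| := abs_mul _ _
      _ ≤ |c i| * (|C₁| * (2 ^ θ * R ^ θ)) := by
          gcongr
          calc |P (R + t i * h)| ≤ C₁ * (R + t i * h) ^ θ := h3
            _ ≤ |C₁| * (2 ^ θ * R ^ θ) := by
                gcongr
                exact le_abs_self _
      _ = |c i| * (|C₁| * 2 ^ θ) * R ^ θ := by ring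
  · rintro ⟨C, R₀, H⟩
    have H' : ∀ R h : ℝ, max R₀ 0 ≤ R → 0 < h → h ≤ R ^ (1 - 2 * θ) →
        ∑ i, c i * P (R + t i * h) ≤ |C| * R ^ θ := by
      intro R h hR h0 h1
      refine (H R h ((le_max_left _ _).trans hR) h0 h1).trans ?_
      have : 0 ≤ R ^ θ := Real.rpow_nonneg ((le_max_right _ _).trans hR) _
      gcongr
      exact le_abs_self _
    obtain ⟨i, hi⟩ := hpos
    obtain ⟨j, hj⟩ := hneg
    obtain ⟨C₁, R₁, h1⟩ := isolate hθ c t ht (abs_nonneg C) H' i
    obtain ⟨C₂, R₂, h2⟩ := isolate hθ c t ht (abs_nonneg C) H' j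
    apply Asymptotics.IsBigO.of_bound (|C₁| / c i + |C₂| / |c j|)
    filter_upwards [Filter.eventually_ge_atTop (max (max R₁ R₂) 0)] with R hR
    have hRR1 : R₁ ≤ R := (le_max_left _ _).trans ((le_max_left _ _).trans hR)
    have hRR2 : R₂ ≤ R := (le_max_right _ _).trans ((le_max_left _ _).trans hR)
    have hR0 : 0 ≤ R := (le_max_right _ _).trans hR
    have hp : 0 ≤ R ^ θ := Real.rpow_nonneg hR0 _
    rw [Real.norm_eq_abs, Real.norm_eq_abs, abs_of_nonneg hp]
    have hcj : 0 < |c j| := abs_pos.mpr hj.ne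
    have e1 : P R ≤ |C₁| / c i * R ^ θ := by
      have := h1 R hRR1
      have h3 : c i * P R ≤ |C₁| * R ^ θ := this.trans (by gcongr; exact le_abs_self _)
      rw [div_mul_eq_mul_div, le_div_iff₀ hi]
      linarith
    have e2 : -(|C₂| / |c j| * R ^ θ) ≤ P R := by
      have := h2 R hRR2
      have h3 : c j * P R ≤ |C₂| * R ^ θ := this.trans (by gcongr; exact le_abs_self _)
      rw [neg_le, div_mul_eq_mul_div, le_div_iff₀ hcj, abs_of_neg hj]
      linarith
    have e3 : 0 ≤ |C₁| / c i * R ^ θ := by positivity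
    have e4 : 0 ≤ |C₂| / |c j| * R ^ θ := by positivity
    rw [abs_le, add_mul]
    constructor <;> linarith

end Pool.Agent.Helper65.Keep.AnnulusEquiv
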